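import Pool.Agent.Helper24.CT.Main

/-!
# The colourful directed Talagrand inequality for weighted influence on hypergrids

We prove Q1 with exponent `c = 2`: for every `f : [n]^d → {0,1}` that is `ε`-far from monotone and
every colouring of the edges of the augmented hypergrid, `T_{Ψ_χ}(f) ≥ C ε / (log n)^2`.
-/

namespace Pool.Agent.Results.MP_21aa3b_co.ColourfulTalagrand

open Finset

variable {n d : ℕ}

/-- The edge `{x, y}` of the augmented hypergrid, where `y` is `x` with its `i`-th coordinate
replaced by `v`, is violating for `f`: the lower end has value `1` and the upper end value `0`. -/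
def Violating (f : (Fin d → Fin n) → Bool) (x : Fin d → Fin n) (i : Fin d) (v : Fin n) : Prop :=
  (x i < v ∧ f x = true ∧ f (Function.update x i v) = false) ∨
  (v < x i ∧ f (Function.update x i v) = true ∧ f x = false)

open Classical in
/-- `Ψ_{f,χ}(x; i)`: the sum of `1/|v - x_i|` over all `v` such that the edge from `x` to
`y = update x i v` is violating and has colour `f x`. The colouring is a `{0,1}`-valued function on
unordered pairs of points (only its values on edges matter). -/
noncomputable def PsiDir (f : (Fin d → Fin n) → Bool) (χ : Sym2 (Fin d → Fin n) → Bool)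
    (x : Fin d → Fin n) (i : Fin d) : ℝ :=
  ∑ v : Fin n, if Violating f x i v ∧ χ s(x, Function.update x i v) = f x
    then 1 / |((v : ℕ) : ℝ) - ((x i : ℕ) : ℝ)| else 0

/-- `T_{Ψ_χ}(f) = E_x √(∑_i Ψ_{f,χ}(x; i))`, `x` uniform on `[n]^d`. -/
noncomputable def TPsi (f : (Fin d → Fin n) → Bool) (χ : Sym2 (Fin d → Fin n) → Bool) : ℝ :=
  (∑ x : Fin d → Fin n, √(∑ i, PsiDir f χ x i)) / (n : ℝ) ^ d

/-- The distance to monotonicity `ε_f`: the least fraction of points of `[n]^d` on which `f`
differs from some monotone function. -/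
noncomputable def distMono (f : (Fin d → Fin n) → Bool) : ℝ :=
  ⨅ g : {g : (Fin d → Fin n) → Bool // Monotone g},
    ((univ.filter (fun x => f x ≠ g.1 x)).card : ℝ) / (n : ℝ) ^ d

/-- The value `1` or `0` of `f`, as a real number. -/
private noncomputable def FF (f : (Fin d → Fin n) → Bool) (x : Fin d → Fin n) : ℝ :=
  if f x then 1 else 0

open Classical in
private noncomputable def UU (f : (Fin d → Fin n) → Bool) (χ : Sym2 (Fin d → Fin n) → Bool)
    (i : Fin d) (x : Fin d → Fin n) (v : Fin n) : ℝ :=
  if Violating f x i v ∧ χ s(x, Function.update x i v) = f x then 1 else 0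

private lemma psi_eq (f : (Fin d → Fin n) → Bool) (χ : Sym2 (Fin d → Fin n) → Bool)
    (x : Fin d → Fin n) : CT.Psi (UU f χ) x = ∑ i, PsiDir f χ x i := by
  unfold CT.Psi PsiDir UU
  apply Finset.sum_congr rfl
  intro i _
  apply Finset.sum_congr rfl
  intro v _
  split_ifs <;> simp

private lemma uu_cover (f : (Fin d → Fin n) → Bool) (χ : Sym2 (Fin d → Fin n) → Bool)
    (i : Fin d) (x : Fin d → Fin n) (v : Fin n) (hlt : x i < v) (h1 : FF f x = 1)
    (h0 : FF f (Function.update x i v) = 0) :
    1 ≤ UU f χ i x v + UU f χ i (Function.update x i v) (x i) := by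
  have hfx : f x = true := by
    by_contra h
    unfold FF at h1
    rw [if_neg h] at h1
    norm_num at h1
  have hfy : f (Function.update x i v) = false := by
    by_contra h
    unfold FF at h0
    rw [Bool.not_eq_false] at h
    rw [if_pos h] at h0
    norm_num at h0
  have hback : Function.update (Function.update x i v) i (x i) = x := by
    rw [Function.update_idem, Function.update_eq_self]
  have hv1 : Violating f x i v := Or.inl ⟨hlt, hfx, hfy⟩
  have hv2 : Violating f (Function.update x i v) i (x i) := by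
    right
    rw [hback, Function.update_self]
    exact ⟨hlt, hfx, hfy⟩
  have hn1 : 0 ≤ UU f χ i x v := by unfold UU; split_ifs <;> norm_num
  have hn2 : 0 ≤ UU f χ i (Function.update x i v) (x i) := by unfold UU; split_ifs <;> norm_num
  cases hχ : χ s(x, Function.update x i v) with
  | true =>
    have : UU f χ i x v = 1 := by
      unfold UU
      rw [if_pos ⟨hv1, by rw [hχ, hfx]⟩]
    linarith
  | false =>
    have : UU f χ i (Function.update x i v) (x i) = 1 := by
      unfold UU
      rw [if_pos ⟨hv2, by rw [hback, Sym2.eq_swap, hχ, hfy]⟩]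
    linarith

/-- **Q1 with `c = 2`.** There is an absolute constant `C > 0` such that for all `n ≥ 2`, `d ≥ 1`,
every `ε > 0`, every `f : [n]^d → {0,1}` that is `ε`-far from monotone and every colouring `χ` of
the edges of the augmented hypergrid, `T_{Ψ_χ}(f) ≥ C ε / (log n)^2`. -/
theorem result : ∃ C : ℝ, 0 < C ∧ ∀ (n d : ℕ), 2 ≤ n → 1 ≤ d →
    ∀ (ε : ℝ), 0 < ε → ∀ (f : (Fin d → Fin n) → Bool), ε ≤ distMono f →
    ∀ (χ : Sym2 (Fin d → Fin n) → Bool),
      C * (ε / (Real.log n) ^ 2) ≤ TPsi f χ := by
  have hlog2 : 0 < Real.log 2 := Real.log_pos (by norm_num)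
  refine ⟨(Real.log 2) ^ 2 / 114688, by positivity, ?_⟩
  intro n d hn _ ε hε f hfar χ
  have hnR : (2:ℝ) ≤ n := by exact_mod_cast hn
  have hn0 : (0:ℝ) < n := by linarith
  have hlogn : Real.log 2 ≤ Real.log n := Real.log_le_log (by norm_num) hnR
  have hlogn0 : 0 < Real.log n := by linarith
  set L : ℕ := Nat.log 2 n + 1 with hL
  have hLn : n ≤ 2 ^ L := (Nat.lt_pow_succ_log_self (by norm_num) n).le
  obtain ⟨G, hG, hcard⟩ := CT.main_bound (U := UU f χ) (FF f)
    (by intro x; unfold FF; split_ifs <;> simp)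
    (by intro i x v; unfold UU; split_ifs <;> norm_num)
    (fun i x v hlt h1 h0 => uu_cover f χ i x v hlt h1 h0) L hLn
  have hfilter : (univ.filter (fun x => FF f x ≠ if G x then 1 else 0)) =
      univ.filter (fun x => f x ≠ G x) := by
    apply Finset.filter_congr
    intro x _
    unfold FF
    cases f x <;> cases G x <;> simp
  rw [hfilter] at hcard
  have hdist : distMono f ≤ ((univ.filter (fun x => f x ≠ G x)).card : ℝ) / (n : ℝ) ^ d := by
    unfold distMono
    have hbdd : BddBelow (Set.range (fun g : {g : (Fin d → Fin n) → Bool // Monotone g} =>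
        ((univ.filter (fun x => f x ≠ g.1 x)).card : ℝ) / (n : ℝ) ^ d)) := by
      refine ⟨0, ?_⟩
      rintro _ ⟨g, rfl⟩
      positivity
    exact ciInf_le hbdd ⟨G, hG⟩
  have hTP : CT.TP (UU f χ) / (n : ℝ) ^ d = TPsi f χ := by
    unfold CT.TP TPsi
    congr 1
    apply Finset.sum_congr rfl
    intro x _
    rw [psi_eq]
  have hTn : 0 ≤ TPsi f χ := by
    rw [← hTP]
    exact div_nonneg CT.TP_nonneg (by positivity)
  have h1 : ε ≤ 28672 * (L : ℝ) ^ 2 * TPsi f χ := by
    refine hfar.trans (hdist.trans ?_)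
    rw [← hTP, ← mul_div_assoc]
    exact div_le_div_of_nonneg_right hcard (by positivity)
  have hLlog : (L : ℝ) * Real.log 2 ≤ 2 * Real.log n := by
    have h2 : (2:ℝ) ^ (Nat.log 2 n) ≤ n := by
      exact_mod_cast Nat.pow_log_le_self 2 (by omega)
    have h3 : (Nat.log 2 n : ℝ) * Real.log 2 ≤ Real.log n := by
      rw [← Real.log_pow]
      exact Real.log_le_log (by positivity) h2
    rw [hL]
    push_cast
    linarith
  have hL2 : (L : ℝ) ^ 2 * (Real.log 2) ^ 2 ≤ 4 * (Real.log n) ^ 2 := by
    have h4 : 0 ≤ (L : ℝ) * Real.log 2 := by positivity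
    have h5 := pow_le_pow_left₀ h4 hLlog 2
    nlinarith
  have key : (Real.log 2) ^ 2 * ε ≤ 114688 * (Real.log n) ^ 2 * TPsi f χ := by
    have h6 : (Real.log 2) ^ 2 * ε ≤ (Real.log 2) ^ 2 * (28672 * (L : ℝ) ^ 2 * TPsi f χ) :=
      mul_le_mul_of_nonneg_left h1 (by positivity)
    have h7 := mul_le_mul_of_nonneg_right hL2 hTn
    nlinarith
  rw [div_mul_div_comm, div_le_iff₀ (by positivity)]
  nlinarith

end Pool.Agent.Results.MP_21aa3b_co.ColourfulTalagrand
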